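import Mathlib
import Pool.Agent.Helper9.NS
import Pool.Agent.Helper15.KP.HFb
import Pool.Agent.Helper17.FF.Approx

/-!
# IR2: centers of places on a product of curves over a general point of the second curve
-/

set_option linter.unusedSectionVars false

namespace Pool.Agent.Helper70.IR2

open VC _root_.VF Function Polynomial Pool.Agent.Helper21.TO Pool.Agent.Helper15.GT Pool.Agent.Helper15.KP
open scoped TensorProduct

universe u

variable {k F1 F2 F : Type u} [Field k] [IsAlgClosed k] [CharZero k] [Field F1] [Algebra k F1] [Field F2]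
  [Algebra k F2] [Field F] [Algebra k F]

lemma isDomain_tensor (k1 : F1 →ₐ[k] F) (k2 : F2 →ₐ[k] F)
    (hinj : Injective (Algebra.TensorProduct.productMap k1 k2)) : IsDomain (F1 ⊗[k] F2) :=
  hinj.isDomain (Algebra.TensorProduct.productMap k1 k2).toRingHom

/-- A common denominator. -/
lemma exists_common (k1 : F1 →ₐ[k] F) (k2 : F2 →ₐ[k] F)
    (hinj : Injective (Algebra.TensorProduct.productMap k1 k2))
    (hgen : ∀ z : F, ∃ a b : F1 ⊗[k] F2, b ≠ 0 ∧
      z * Algebra.TensorProduct.productMap k1 k2 b = Algebra.TensorProduct.productMap k1 k2 a)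
    {M : ℕ} (ξ : Fin M → F) : ∃ (D : F1 ⊗[k] F2) (a : Fin M → F1 ⊗[k] F2), D ≠ 0 ∧
      ∀ i, Algebra.TensorProduct.productMap k1 k2 D * ξ i = Algebra.TensorProduct.productMap k1 k2 (a i) := by
  classical
  have := isDomain_tensor k1 k2 hinj
  choose a b hb hab using fun i => hgen (ξ i)
  refine ⟨∏ i, b i, fun i => (∏ j ∈ Finset.univ.erase i, b j) * a i, Finset.prod_ne_zero_iff.mpr fun i _ => hb i,
    fun i => ?_⟩
  rw [← Finset.mul_prod_erase _ _ (Finset.mem_univ i), map_mul, map_mul, ← hab i]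
  ring

/-- The center of a place `w` on the closure of `ξ` is determined by the restrictions, if the restriction to `F2` is
outside a finite set which depends on the restriction to `F1`. -/
theorem good (h1 : IsFunctionField k F1) (h2 : IsFunctionField k F2) (k1 : F1 →ₐ[k] F) (k2 : F2 →ₐ[k] F)
    (hinj : Injective (Algebra.TensorProduct.productMap k1 k2))
    (hgen : ∀ z : F, ∃ a b : F1 ⊗[k] F2, b ≠ 0 ∧
      z * Algebra.TensorProduct.productMap k1 k2 b = Algebra.TensorProduct.productMap k1 k2 a)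
    {M : ℕ} (ξ : Fin M → F) (hξ : ξ ≠ 0) (P : Place k F1) : ∃ B : Set (Place k F2), B.Finite ∧
      ∀ w w' : RPl k F, w.pl h1 k1 = P → w'.pl h1 k1 = P → w.pl h2 k2 = w'.pl h2 k2 → w'.pl h2 k2 ∉ B →
        evP ξ hξ w = evP ξ hξ w' := by
  classical
  have := isDomain_tensor k1 k2 hinj
  obtain ⟨D, a, hD, ha⟩ := exists_common k1 k2 hinj hgen ξ
  set p := Algebra.TensorProduct.productMap k1 k2 with hp
  have hpD : p D ≠ 0 := fun h => hD (hinj (by rw [h, map_zero]))
  let β := Module.Basis.ofVectorSpace k F2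
  choose c hc using fun i => TensorProduct.eq_repr_basis_right β (a i)
  have hpa : ∀ i, p (a i) = (c i).sum fun j m => k1 m * k2 (β j) := by
    intro i
    rw [← hc i, Finsupp.sum, map_sum]
    refine Finset.sum_congr rfl fun j _ => ?_
    rw [hp, Algebra.TensorProduct.productMap_apply_tmul]
  let S : Finset (Module.Basis.ofVectorSpaceIndex k F2) := Finset.univ.biUnion fun i => (c i).support
  have hpa' : ∀ i, p (a i) = ∑ j ∈ S, k1 (c i j) * k2 (β j) := by
    intro i
    rw [hpa, Finsupp.sum_of_support_subset (s := S) _ (Finset.subset_biUnion_of_mem (fun i => (c i).support) (Finset.mem_univ i))]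
    intro j _
    rw [map_zero, zero_mul]
  obtain ⟨i₁, hi₁⟩ := Function.ne_iff.mp hξ
  have hex : ∃ j₁ ∈ S, c i₁ j₁ ≠ 0 := by
    by_contra hcon
    push Not at hcon
    have h3 : p (a i₁) = 0 := by
      rw [hpa']
      refine Finset.sum_eq_zero fun j hj => ?_
      rw [hcon j hj, map_zero, zero_mul]
    rw [← ha] at h3
    exact hi₁ ((mul_eq_zero.mp h3).resolve_left hpD)
  obtain ⟨j₁, hj₁, hc₁⟩ := hex
  obtain ⟨⟨i₀, j₀⟩, hm, hmax⟩ := Finset.exists_max_image ((Finset.univ : Finset (Fin M)) ×ˢ S)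
    (fun x => FF.val h1 P (c x.1 x.2)) ⟨(i₁, j₁), Finset.mem_product.mpr ⟨Finset.mem_univ _, hj₁⟩⟩
  have hj₀ : j₀ ∈ S := (Finset.mem_product.mp hm).2
  have hc₀ : c i₀ j₀ ≠ 0 := by
    intro h0
    have h3 := hmax (i₁, j₁) (Finset.mem_product.mpr ⟨Finset.mem_univ _, hj₁⟩)
    simp only [h0, map_zero] at h3
    rw [le_zero_iff, map_eq_zero] at h3
    exact hc₁ h3
  have hmem : ∀ i, ∀ j ∈ S, c i j / c i₀ j₀ ∈ P.ring := by
    intro i j hj
    rw [← FF.val_le_one_iff h1, map_div₀]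
    have h3 := hmax (i, j) (Finset.mem_product.mpr ⟨Finset.mem_univ _, hj⟩)
    exact div_le_one_of_le₀ h3 zero_le'
  have hres : ∀ i j, ∃ r : k, j ∈ S → c i j / c i₀ j₀ - algebraMap k F1 r ∈ P.ring.nonunits := by
    intro i j
    by_cases hj : j ∈ S
    · obtain ⟨r, hr⟩ := FF.exists_residue h1 P (hmem i j hj)
      exact ⟨r, fun _ => hr⟩
    · exact ⟨0, fun h => absurd h hj⟩
  choose r hr using hres
  have hr₀ : r i₀ j₀ = 1 := by
    have h3 := hr i₀ j₀ hj₀
    rw [div_self hc₀] at h3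
    by_contra hne
    have h4 : algebraMap k F1 (1 - r i₀ j₀) ∈ P.ring.nonunits := by
      rw [map_sub, map_one]
      exact h3
    exact sub_ne_zero.mpr (Ne.symm hne) (FF.algebraMap_mem_nonunits P h4)
  let s : F2 := ∑ j ∈ S, r i₀ j • β j
  have hs : s ≠ 0 := by
    intro h0
    have h3 := linearIndependent_iff'.mp β.linearIndependent S (fun j => r i₀ j) h0 j₀ hj₀
    rw [hr₀] at h3
    exact one_ne_zero h3
  refine ⟨(⋃ j ∈ S, {z | ord z.ring (β j) ≠ 0}) ∪ {z | ord z.ring s ≠ 0},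
    (Set.Finite.biUnion S.finite_toSet fun j _ => finite_support_ord h2 (β.ne_zero j)).union
      (finite_support_ord h2 hs), ?_⟩
  intro w w' hw hw' hww hB
  set z := w'.pl h2 k2 with hz
  have hβ : ∀ j ∈ S, β j ∈ z.ring := by
    intro j hj
    rw [← FF.ord_nonneg_iff h2 z (β.ne_zero j)]
    by_contra hcon
    apply hB
    left
    simp only [Set.mem_iUnion]
    exact ⟨j, hj, fun h0 => hcon (by rw [h0])⟩
  have hs0 : ord z.ring s = 0 := by
    by_contra hcon
    exact hB (Or.inr hcon)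
  have hres2 : ∀ j, ∃ t : k, j ∈ S → IsRes z (β j) t := by
    intro j
    by_cases hj : j ∈ S
    · obtain ⟨r, hr⟩ := FF.exists_residue h2 z (hβ j hj)
      exact ⟨r, fun _ => hr⟩
    · exact ⟨0, fun h => absurd h hj⟩
  choose t ht using hres2
  -- the vector of values
  have key : ∀ w : RPl k F, w.pl h1 k1 = P → w.pl h2 k2 = z → ∀ i,
      Rs w ((k1 (c i₀ j₀))⁻¹ * p D * ξ i) (∑ j ∈ S, r i j * t j) := by
    intro w hw hwz i
    have h3 : (k1 (c i₀ j₀))⁻¹ * p D * ξ i = ∑ j ∈ S, k1 (c i j / c i₀ j₀) * k2 (β j) := by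
      rw [mul_assoc, ha, hpa', Finset.mul_sum]
      refine Finset.sum_congr rfl fun j _ => ?_
      rw [map_div₀]
      ring
    rw [h3]
    refine Rs.sum _ fun j hj => Rs.mul ?_ ?_
    · rw [← isRes_pl h1, hw]
      exact hr i j hj
    · rw [← isRes_pl h2, hwz]
      exact ht j hj
  have hb : (fun i => ∑ j ∈ S, r i j * t j) ≠ 0 := by
    intro h0
    have h3 : Rs w' (k2 s) (∑ j ∈ S, r i₀ j * t j) := by
      rw [map_sum]
      refine Rs.sum _ fun j hj => ?_
      rw [map_smul, Algebra.smul_def]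
      refine (rs_const _).mul ?_
      rw [← isRes_pl h2, ← hz]
      exact ht j hj
    have h4 : (∑ j ∈ S, r i₀ j * t j) = 0 := congrFun h0 i₀
    rw [h4, ← isRes_pl h2, ← hz] at h3
    have h5 : s ∈ z.ring.nonunits := by
      have h6 : s - algebraMap k F2 0 ∈ z.ring.nonunits := h3
      rwa [map_zero, sub_zero] at h6
    have h7 := (FF.ord_pos_iff h2 z hs).mpr h5
    rw [hs0] at h7
    exact lt_irrefl _ h7
  have hv : ∀ w : RPl k F, w.pl h1 k1 = P → w.pl h2 k2 = z → Vl w ξ fun i => ∑ j ∈ S, r i j * t j :=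
    fun w hw hwz => ⟨hb, _, key w hw hwz⟩
  rw [evP_eq hξ (hv w hw hww) hb (hv w hw hww).sat, evP_eq hξ (hv w' hw' rfl) hb (hv w' hw' rfl).sat]

end Pool.Agent.Helper70.IR2
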