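import Mathlib
import Pool.Agent.Helper70.IR2.Good
import Pool.Agent.Helper98.JC.Orth
import Pool.Agent.Helper98.JC.Emb
import Pool.Agent.Helper17.FF.Homog
import Pool.Agent.Helper70.JC.Fam
import Pool.Agent.Helper98.IV.Gen

/-!
# IR2: harmonic functions on the places of the function field of a product of two curves

They depend only on the restrictions to the function fields of the curves.
-/

set_option linter.unusedSectionVars false

namespace Pool.Agent.Helper70.IR2

open VC _root_.VF Function Polynomial Pool.Agent.Helper21.TO Pool.Agent.Helper15.GT Pool.Agent.Helper15.KP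
open Pool.Agent.Helper98.JC
open scoped TensorProduct

universe u

variable {k F1 F2 F A : Type u} [Field k] [IsAlgClosed k] [CharZero k] [Field F1] [Algebra k F1] [Field F2]
  [Algebra k F2] [Field F] [Algebra k F] [Field A] [Algebra k A] [IsAlgClosed A]

/-- The embeddings of `F2` in an algebraically closed field with given value at `f`. -/
lemma finite_tau (h2 : IsFunctionField k F2) (f : F2) (hf : Transcendental k f) (τ₀ : F2 →ₐ[k] A) :
    Finite {τ : F2 →ₐ[k] A // τ f = τ₀ f} := by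
  classical
  obtain ⟨N, _, _, _, _, hN, G, _, _, _, hG⟩ := exists_cover h2 f hf
  obtain ⟨ι, hια⟩ := exists_ext_emb hN h2 (IsScalarTower.toAlgHom k F2 N) τ₀
  have hι : ∀ a : F2, ι (algebraMap F2 N a) = τ₀ a := fun a => DFunLike.congr_fun hια a
  have : Finite {φ : F2 →ₐ[k] N // φ f = algebraMap F2 N f} := finite_homs (K := N) f (h2.finiteDimensional hf)
  have key : ∀ τ : {τ : F2 →ₐ[k] A // τ f = τ₀ f}, ∃ φ : {φ : F2 →ₐ[k] N // φ f = algebraMap F2 N f},
      ι.comp φ.1 = τ.1 := by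
    intro τ
    have h4 : ∀ a, τ.1 a ∈ ι.range := fun a => mem_of_gal f G hG ι τ.1 (by rw [hι]; exact τ.2) a
    let g : F2 →ₐ[k] N := ((AlgEquiv.ofInjective ι ι.toRingHom.injective).symm : ι.range →ₐ[k] N).comp
      (τ.1.codRestrict ι.range h4)
    have hg : ι.comp g = τ.1 := by
      ext a
      have h5 := (AlgEquiv.ofInjective ι ι.toRingHom.injective).apply_symm_apply (⟨τ.1 a, h4 a⟩ : ι.range)
      exact congrArg Subtype.val h5
    refine ⟨⟨g, ?_⟩, hg⟩
    apply ι.toRingHom.injective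
    change (ι.comp g) f = ι (algebraMap F2 N f)
    rw [hg, hι]
    exact τ.2
  choose φ hφ using key
  refine Finite.of_injective φ fun a b h => Subtype.ext ?_
  rw [← hφ a, ← hφ b, h]

open Classical in
lemma sum_tau (h2 : IsFunctionField k F2) (f : F2) (hf0 : f ≠ 0) (hf : Transcendental k f) (τ₀ : F2 →ₐ[k] A)
    [Fintype {τ : F2 →ₐ[k] A // τ f = τ₀ f}] (x : RPl k A) (hx : Rs x (τ₀ f) 0) (Q : Place k F2 → k) :
    ∑ τ : {τ : F2 →ₐ[k] A // τ f = τ₀ f}, Q (x.pl h2 τ.1) =
      ∑ z ∈ (finite_support_ord h2 hf0).toFinset, ((max (ord z.ring f) 0 : ℤ) : k) * Q z := by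
  classical
  obtain ⟨N, _, _, _, _, hN, G, _, _, _, hG⟩ := exists_cover h2 f hf
  obtain ⟨ι, hια⟩ := exists_ext_emb hN h2 (IsScalarTower.toAlgHom k F2 N) τ₀
  have hι : ∀ a : F2, ι (algebraMap F2 N a) = τ₀ a := fun a => DFunLike.congr_fun hια a
  have key : ∀ τ : {τ : F2 →ₐ[k] A // τ f = τ₀ f}, ∃ φ : F2 →ₐ[k] N, φ f = algebraMap F2 N f ∧
      ι.comp φ = τ.1 := by
    intro τ
    have h4 : ∀ a, τ.1 a ∈ ι.range := fun a => mem_of_gal f G hG ι τ.1 (by rw [hι]; exact τ.2) a
    let g : F2 →ₐ[k] N := ((AlgEquiv.ofInjective ι ι.toRingHom.injective).symm : ι.range →ₐ[k] N).comp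
      (τ.1.codRestrict ι.range h4)
    have hg : ι.comp g = τ.1 := by
      ext a
      have h5 := (AlgEquiv.ofInjective ι ι.toRingHom.injective).apply_symm_apply (⟨τ.1 a, h4 a⟩ : ι.range)
      exact congrArg Subtype.val h5
    refine ⟨g, ?_, hg⟩
    apply ι.toRingHom.injective
    change (ι.comp g) f = ι (algebraMap F2 N f)
    rw [hg, hι]
    exact τ.2
  choose φ hφ hφ' using key
  have hv : algebraMap F2 N f ∈ (x.pl hN ι).ring.nonunits := by
    have h3 : IsRes (x.pl hN ι) (algebraMap F2 N f) 0 := by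
      rw [isRes_pl, hι]
      exact hx
    have h4 : algebraMap F2 N f - algebraMap k N 0 ∈ (x.pl hN ι).ring.nonunits := h3
    rwa [map_zero, sub_zero] at h4
  rw [← sum_embeddings h2 hN f hf0 hf G hG (x.pl hN ι) hv {τ : F2 →ₐ[k] A // τ f = τ₀ f} φ ?_ ?_ Q]
  · refine Finset.sum_congr rfl fun τ _ => ?_
    have h3 : Place.comap h2 hN (φ τ) (x.pl hN ι) = x.pl h2 (ι.comp (φ τ)) := rfl
    rw [h3, hφ']
  · intro a b h
    apply Subtype.ext
    rw [← hφ' a, ← hφ' b, h]
  · intro ψ
    constructor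
    · intro hψ
      refine ⟨⟨ι.comp ψ, ?_⟩, ?_⟩
      · change ι (ψ f) = τ₀ f
        rw [hψ, hι]
      · have h3 := hφ' ⟨ι.comp ψ, by
          change ι (ψ f) = τ₀ f
          rw [hψ, hι]⟩
        ext a
        apply ι.toRingHom.injective
        exact DFunLike.congr_fun h3 a
    · rintro ⟨τ, rfl⟩
      exact hφ τ

/-- An element of the second field is transcendental over the first field. -/
lemma transc (k1 : F1 →ₐ[k] F) (k2 : F2 →ₐ[k] F) (hinj : Injective (Algebra.TensorProduct.productMap k1 k2))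
    (f : F2) (hf : Transcendental k f) (q : F1[X]) (hq : q.eval₂ (k1 : F1 →+* F) (k2 f) = 0) : q = 0 := by
  classical
  have h3 : LinearIndependent F1 fun n : ℕ => (1 : F1) ⊗ₜ[k] (f ^ n) := by
    have h4 : LinearIndependent k fun n : ℕ => f ^ n := by
      rw [linearIndependent_iff']
      intro s g hg n hn
      have h5 : aeval f (∑ i ∈ s, C (g i) * X ^ i) = 0 := by
        rw [map_sum, ← hg]
        refine Finset.sum_congr rfl fun i _ => ?_
        rw [map_mul, aeval_C, map_pow, aeval_X, Algebra.smul_def]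
      have h6 : (∑ i ∈ s, C (g i) * X ^ i : k[X]) = 0 := by
        by_contra hne
        exact hf ⟨_, hne, h5⟩
      have h7 := congrArg (fun p : k[X] => p.coeff n) h6
      simp only [Polynomial.finsetSum_coeff, coeff_C_mul, coeff_X_pow, coeff_zero, mul_ite, mul_one, mul_zero,
        Finset.sum_ite_eq, if_pos hn] at h7
      exact h7
    exact Module.Flat.linearIndependent_one_tmul h4
  have h1 : Algebra.TensorProduct.productMap k1 k2
      (∑ n ∈ Finset.range (q.natDegree + 1), q.coeff n • (1 : F1) ⊗ₜ[k] (f ^ n)) = 0 := by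
    rw [map_sum, ← hq, eval₂_eq_sum_range]
    refine Finset.sum_congr rfl fun n _ => ?_
    rw [TensorProduct.smul_tmul', smul_eq_mul, mul_one, Algebra.TensorProduct.productMap_apply_tmul, map_pow]
    rfl
  have h2 := hinj (h1.trans (map_zero _).symm)
  ext n
  rw [coeff_zero]
  by_cases hn : n ∈ Finset.range (q.natDegree + 1)
  · exact linearIndependent_iff'.mp h3 _ _ h2 n hn
  · rw [Finset.mem_range, not_lt] at hn
    exact coeff_eq_zero_of_natDegree_lt (Nat.lt_of_succ_le hn)

/-- The embedding of the tensor product which is given by a conjugate. -/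
lemma inj_tau (h2 : IsFunctionField k F2) (k1 : F1 →ₐ[k] F) (k2 : F2 →ₐ[k] F)
    (hinj : Injective (Algebra.TensorProduct.productMap k1 k2)) (i : F →ₐ[k] A) (f : F2) (hf : Transcendental k f)
    (τ : F2 →ₐ[k] A) (hτ : τ f = i (k2 f)) : Injective (Algebra.TensorProduct.productMap (i.comp k1) τ) := by
  classical
  let _ : Algebra F1 A := (i.comp k1).toRingHom.toAlgebra
  have _ : IsScalarTower k F1 A := IsScalarTower.of_algebraMap_eq fun c => ((i.comp k1).commutes c).symm
  let α : AlgebraicClosure F1 →ₐ[k] A :=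
    (IsAlgClosed.lift (S := AlgebraicClosure F1) (R := F1) (M := A)).restrictScalars k
  have hα : ∀ a : F1, α (algebraMap F1 (AlgebraicClosure F1) a) = i (k1 a) := fun a =>
    (IsAlgClosed.lift (S := AlgebraicClosure F1) (R := F1) (M := A)).commutes a
  have hx : ∀ c : AlgebraicClosure F1, α c ≠ τ f := by
    intro c hc
    obtain ⟨q, hq, hqc⟩ := Algebra.IsAlgebraic.isAlgebraic (R := F1) c
    apply hq
    apply transc k1 k2 hinj f hf
    apply i.toRingHom.injective
    rw [map_zero]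
    have h3 : α (aeval c q) = 0 := by rw [hqc, map_zero]
    rw [aeval_def] at h3
    have h4 := Polynomial.hom_eval₂ q (algebraMap F1 (AlgebraicClosure F1)) (α : AlgebraicClosure F1 →+* A) c
    have h5 := Polynomial.hom_eval₂ q (k1 : F1 →+* F) (i : F →+* A) (k2 f)
    have h6 : ((α : AlgebraicClosure F1 →+* A).comp (algebraMap F1 (AlgebraicClosure F1))) =
        (i : F →+* A).comp (k1 : F1 →+* F) := by
      ext a
      exact hα a
    have h7 : (α : AlgebraicClosure F1 →+* A) c = (i : F →+* A) (k2 f) := hc.trans hτ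
    rw [h6, h7] at h4
    change (i : F →+* A) _ = 0
    rw [h5, ← h4]
    exact h3
  have h3 := FF.productMap_injective h2 α τ hx
  let g : F1 →ₐ[k] AlgebraicClosure F1 := IsScalarTower.toAlgHom k F1 (AlgebraicClosure F1)
  have h4 : Injective (Algebra.TensorProduct.map g (AlgHom.id k F2)) :=
    Module.Flat.rTensor_preserves_injective_linearMap (M := F2) g.toLinearMap g.toRingHom.injective
  have h5 : Algebra.TensorProduct.productMap (i.comp k1) τ =
      (Algebra.TensorProduct.productMap α τ).comp (Algebra.TensorProduct.map g (AlgHom.id k F2)) := by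
    apply Algebra.TensorProduct.ext'
    intro a b
    rw [Algebra.TensorProduct.productMap_apply_tmul]
    change i (k1 a) * τ b =
      Algebra.TensorProduct.productMap α τ (Algebra.TensorProduct.map g (AlgHom.id k F2) (a ⊗ₜ b))
    rw [Algebra.TensorProduct.map_tmul, Algebra.TensorProduct.productMap_apply_tmul]
    change _ = α (algebraMap F1 _ a) * τ b
    rw [hα]
  rw [h5]
  exact h3.comp h4

/-- Embeddings of `F` in terms of the restrictions to `F1` and `F2`. -/
lemma exists_sigma (k1 : F1 →ₐ[k] F) (k2 : F2 →ₐ[k] F) (hinj : Injective (Algebra.TensorProduct.productMap k1 k2))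
    (hgen : ∀ z : F, ∃ a b : F1 ⊗[k] F2, b ≠ 0 ∧
      z * Algebra.TensorProduct.productMap k1 k2 b = Algebra.TensorProduct.productMap k1 k2 a)
    (ρ : F1 →ₐ[k] A) (τ : F2 →ₐ[k] A) (h : Injective (Algebra.TensorProduct.productMap ρ τ)) :
    ∃ σ : F →ₐ[k] A, σ.comp k1 = ρ ∧ σ.comp k2 = τ := by
  classical
  have hD := isDomain_tensor k1 k2 hinj
  set p := Algebra.TensorProduct.productMap k1 k2 with hp
  let _ : Algebra (F1 ⊗[k] F2) F := p.toRingHom.toAlgebra
  have hfr : IsFractionRing (F1 ⊗[k] F2) F := by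
    refine ⟨?_, ?_, ?_⟩
    · intro y
      exact IsUnit.mk0 _ fun h0 => nonZeroDivisors.ne_zero y.2 (hinj (h0.trans (map_zero _).symm))
    · intro z
      obtain ⟨a, b, hb, hab⟩ := hgen z
      exact ⟨(a, ⟨b, mem_nonZeroDivisors_of_ne_zero hb⟩), hab⟩
    · intro a b hab
      exact ⟨1, by rw [hinj hab]⟩
  let σ₀ : F →+* A := IsFractionRing.lift (A := F1 ⊗[k] F2) (K := F)
    (g := (Algebra.TensorProduct.productMap ρ τ).toRingHom) h
  have hσ₀ : ∀ a, σ₀ (p a) = Algebra.TensorProduct.productMap ρ τ a := fun a =>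
    IsFractionRing.lift_algebraMap (A := F1 ⊗[k] F2) (K := F) h a
  let σ : F →ₐ[k] A :=
    { σ₀ with
      commutes' := fun c => by
        have h3 := hσ₀ (algebraMap k _ c)
        rw [AlgHom.commutes, AlgHom.commutes] at h3
        exact h3 }
  refine ⟨σ, ?_, ?_⟩
  · ext a
    have h3 := hσ₀ (a ⊗ₜ 1)
    rw [hp, Algebra.TensorProduct.productMap_apply_tmul, Algebra.TensorProduct.productMap_apply_tmul, map_one, map_one,
      mul_one, mul_one] at h3
    exact h3
  · ext a
    have h3 := hσ₀ (1 ⊗ₜ a)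
    rw [hp, Algebra.TensorProduct.productMap_apply_tmul, Algebra.TensorProduct.productMap_apply_tmul, map_one, map_one,
      one_mul, one_mul] at h3
    exact h3

lemma uniq_sigma (k1 : F1 →ₐ[k] F) (k2 : F2 →ₐ[k] F) (hinj : Injective (Algebra.TensorProduct.productMap k1 k2))
    (hgen : ∀ z : F, ∃ a b : F1 ⊗[k] F2, b ≠ 0 ∧
      z * Algebra.TensorProduct.productMap k1 k2 b = Algebra.TensorProduct.productMap k1 k2 a)
    (σ σ' : F →ₐ[k] A) (h1 : σ.comp k1 = σ'.comp k1) (h2 : σ.comp k2 = σ'.comp k2) : σ = σ' := by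
  have key : ∀ g : F →ₐ[k] A, g.comp (Algebra.TensorProduct.productMap k1 k2) =
      Algebra.TensorProduct.productMap (g.comp k1) (g.comp k2) := by
    intro g
    apply Algebra.TensorProduct.ext'
    intro a b
    rw [Algebra.TensorProduct.productMap_apply_tmul, AlgHom.comp_apply, Algebra.TensorProduct.productMap_apply_tmul,
      map_mul]
    rfl
  have h3 : σ.comp (Algebra.TensorProduct.productMap k1 k2) = σ'.comp (Algebra.TensorProduct.productMap k1 k2) := by
    rw [key, key, h1, h2]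
  ext z
  obtain ⟨a, b, hb, hab⟩ := hgen z
  have h4 : Algebra.TensorProduct.productMap k1 k2 b ≠ 0 := fun h0 => hb (hinj (h0.trans (map_zero _).symm))
  have h5 : σ (Algebra.TensorProduct.productMap k1 k2 b) ≠ 0 := (_root_.map_ne_zero _).mpr h4
  have h6 := congrArg σ hab
  have h7 := congrArg σ' hab
  have h8 := DFunLike.congr_fun h3 a
  have h9 := DFunLike.congr_fun h3 b
  simp only [AlgHom.comp_apply] at h8 h9
  rw [map_mul] at h6 h7
  rw [← h8, ← h9] at h7
  exact mul_right_cancel₀ h5 (h6.trans h7.symm)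

section fib

variable (k1 : F1 →ₐ[k] F) (k2 : F2 →ₐ[k] F) (f : F2)

/-- The field generated by `F1` and the function `f` of `F2`. -/
abbrev EE : IntermediateField k F := IntermediateField.adjoin k (Set.range k1 ∪ {k2 f})

lemma k1_mem (a : F1) : k1 a ∈ EE k1 k2 f := IntermediateField.subset_adjoin k _ (Or.inl ⟨a, rfl⟩)

lemma k2_mem : k2 f ∈ EE k1 k2 f := IntermediateField.subset_adjoin k _ (Or.inr rfl)

/-- The embedding of the first field. -/
def ke : F1 →ₐ[k] EE k1 k2 f := k1.codRestrict (EE k1 k2 f).toSubalgebra (k1_mem k1 k2 f)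

lemma ratF_ee (z : EE k1 k2 f) : z ∈ ratF (ke k1 k2 f : F1 →+* EE k1 k2 f) ⟨k2 f, k2_mem k1 k2 f⟩ := by
  have h2 : ∀ z : EE k1 k2 f, (z : F) ∈ (ratF (ke k1 k2 f : F1 →+* EE k1 k2 f) ⟨k2 f, k2_mem k1 k2 f⟩).map
      ((EE k1 k2 f).val : EE k1 k2 f →+* F) := by
    rintro ⟨z, hz⟩
    change z ∈ _
    induction hz using IntermediateField.adjoin_induction with
    | mem x hx =>
      rcases hx with ⟨a, rfl⟩ | hx
      · exact ⟨ke k1 k2 f a, ratF_base _ _ a, rfl⟩
      · rw [Set.mem_singleton_iff.mp hx]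
        exact ⟨⟨k2 f, k2_mem k1 k2 f⟩, ratF_gen _ _, rfl⟩
    | algebraMap c =>
      refine ⟨ke k1 k2 f (algebraMap k F1 c), ratF_base _ _ _, ?_⟩
      rw [AlgHom.commutes]
      rfl
    | add x y _ _ hx hy => exact add_mem hx hy
    | mul x y _ _ hx hy => exact mul_mem hx hy
    | inv x _ hx => exact inv_mem hx
  obtain ⟨z', hz', hz''⟩ := h2 z
  have h3 : z' = z := Subtype.ext hz''
  rwa [h3] at hz'

lemma transc_ee (hinj : Injective (Algebra.TensorProduct.productMap k1 k2)) (hf : Transcendental k f) (q : F1[X])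
    (hq : q.eval₂ (ke k1 k2 f : F1 →+* EE k1 k2 f) ⟨k2 f, k2_mem k1 k2 f⟩ = 0) : q = 0 := by
  apply transc k1 k2 hinj f hf
  have h2 := Polynomial.hom_eval₂ q (ke k1 k2 f : F1 →+* EE k1 k2 f) ((EE k1 k2 f).val : EE k1 k2 f →+* F)
    ⟨k2 f, k2_mem k1 k2 f⟩
  rw [hq, map_zero] at h2
  exact h2.symm

lemma alg_ee (h2 : IsFunctionField k F2) (hinj : Injective (Algebra.TensorProduct.productMap k1 k2))
    (hgen : ∀ z : F, ∃ a b : F1 ⊗[k] F2, b ≠ 0 ∧
      z * Algebra.TensorProduct.productMap k1 k2 b = Algebra.TensorProduct.productMap k1 k2 a)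
    (hf : Transcendental k f) : Algebra.IsAlgebraic (EE k1 k2 f) F := by
  classical
  have hfin : FiniteDimensional (IntermediateField.adjoin k {f}) F2 := h2.finiteDimensional hf
  have hle : ∀ y : IntermediateField.adjoin k {f}, k2 y ∈ EE k1 k2 f := by
    rintro ⟨y, hy⟩
    change k2 y ∈ _
    induction hy using IntermediateField.adjoin_induction with
    | mem x hx =>
      rw [Set.mem_singleton_iff.mp hx]
      exact k2_mem k1 k2 f
    | algebraMap c =>
      rw [AlgHom.commutes]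
      exact (EE k1 k2 f).algebraMap_mem c
    | add x y _ _ hx hy => rw [map_add]; exact add_mem hx hy
    | mul x y _ _ hx hy => rw [map_mul]; exact mul_mem hx hy
    | inv x _ hx => rw [map_inv₀]; exact inv_mem hx
  let g : IntermediateField.adjoin k {f} →ₐ[k] EE k1 k2 f :=
    (k2.comp (IntermediateField.adjoin k {f}).val).codRestrict (EE k1 k2 f).toSubalgebra hle
  have hb : ∀ b : F2, IsAlgebraic (EE k1 k2 f) (k2 b) := by
    intro b
    obtain ⟨q, hq, hqb⟩ := Algebra.IsAlgebraic.isAlgebraic (R := IntermediateField.adjoin k {f}) b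
    refine ⟨q.map (g : IntermediateField.adjoin k {f} →+* EE k1 k2 f), ?_, ?_⟩
    · exact Polynomial.map_ne_zero hq
    · rw [aeval_def, eval₂_map]
      have h3 := Polynomial.hom_eval₂ q (algebraMap (IntermediateField.adjoin k {f}) F2) (k2 : F2 →+* F) b
      rw [← aeval_def, hqb, map_zero] at h3
      exact h3.symm
  have hp : ∀ a : F1 ⊗[k] F2, Algebra.TensorProduct.productMap k1 k2 a ∈ algebraicClosure (EE k1 k2 f) F := by
    intro a
    induction a using TensorProduct.induction_on with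
    | zero => rw [map_zero]; exact zero_mem _
    | tmul x y =>
      rw [Algebra.TensorProduct.productMap_apply_tmul]
      refine mul_mem ?_ (mem_algebraicClosure_iff.mpr (hb y))
      exact (algebraicClosure (EE k1 k2 f) F).algebraMap_mem (⟨k1 x, k1_mem k1 k2 f x⟩ : EE k1 k2 f)
    | add x y hx hy => rw [map_add]; exact add_mem hx hy
  constructor
  intro z
  obtain ⟨a, b, hb, hab⟩ := hgen z
  have h4 : Algebra.TensorProduct.productMap k1 k2 b ≠ 0 := fun h0 => hb (hinj (h0.trans (map_zero _).symm))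
  have h5 : z = Algebra.TensorProduct.productMap k1 k2 a / Algebra.TensorProduct.productMap k1 k2 b := by
    rw [eq_div_iff h4, hab]
  have h6 : z ∈ algebraicClosure (EE k1 k2 f) F := by
    rw [h5]
    exact div_mem (hp a) (hp b)
  exact mem_algebraicClosure_iff.mp h6

/-- The sum of a harmonic function over the embeddings over the field generated by `F1` and `f`. -/
theorem fib (h1 : IsFunctionField k F1) (h2 : IsFunctionField k F2)
    (hinj : Injective (Algebra.TensorProduct.productMap k1 k2))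
    (hgen : ∀ z : F, ∃ a b : F1 ⊗[k] F2, b ≠ 0 ∧
      z * Algebra.TensorProduct.productMap k1 k2 b = Algebra.TensorProduct.productMap k1 k2 a)
    (i : F →ₐ[k] A) (halg : ∀ z : A, ∃ p : F[X], p ≠ 0 ∧ p.eval₂ (i : F →+* A) z = 0)
    (hf : Transcendental k f) [Fintype {τ : F2 →ₐ[k] A // τ f = (i.comp k2) f}] {u : RPl k F → k} (hu : HF k F u) :
    ∃ (σ : {τ : F2 →ₐ[k] A // τ f = (i.comp k2) f} → F →ₐ[k] A) (l : Place k F1 → k),
      (∀ τ, (σ τ).comp k1 = i.comp k1) ∧ (∀ τ, (σ τ).comp k2 = τ.1) ∧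
      ∀ W : RPl k A, ∑ τ, u (W.comap (σ τ)) = l (W.pl h1 (i.comp k1)) := by
  classical
  choose σ hσ1 hσ2 using fun τ : {τ : F2 →ₐ[k] A // τ f = (i.comp k2) f} =>
    exists_sigma k1 k2 hinj hgen (i.comp k1) τ.1 (inj_tau h2 k1 k2 hinj i f hf τ.1 τ.2)
  let e : EE k1 k2 f →ₐ[k] A := i.comp (EE k1 k2 f).val
  have hae := alg_ee k1 k2 f h2 hinj hgen hf
  have he : ∀ x : A, ∃ p : Polynomial (EE k1 k2 f), p ≠ 0 ∧ p.eval₂ (e : EE k1 k2 f →+* A) x = 0 := by
    intro x
    let _ : Algebra F A := i.toRingHom.toAlgebra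
    have : Algebra.IsAlgebraic F A := ⟨fun x => by
      obtain ⟨p, hp, h⟩ := halg x
      exact ⟨p, hp, h⟩⟩
    have : Algebra.IsAlgebraic (EE k1 k2 f) A := Algebra.IsAlgebraic.trans (EE k1 k2 f) F A
    obtain ⟨p, hp, h⟩ := Algebra.IsAlgebraic.isAlgebraic (R := EE k1 k2 f) x
    exact ⟨p, hp, h⟩
  have hne : Nonempty {τ : F2 →ₐ[k] A // τ f = (i.comp k2) f} := ⟨⟨i.comp k2, rfl⟩⟩
  let H : Set (A ≃ₐ[k] A) := {ρ | (ρ : A →ₐ[k] A).comp e = e}
  have hHf : ∀ ρ ∈ H, ρ ((i.comp k2) f) = (i.comp k2) f := fun ρ hρ =>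
    DFunLike.congr_fun (show (ρ : A →ₐ[k] A).comp e = e from hρ) (⟨k2 f, k2_mem k1 k2 f⟩ : EE k1 k2 f)
  have hHf' : ∀ ρ ∈ H, ρ.symm ((i.comp k2) f) = (i.comp k2) f := by
    intro ρ hρ
    rw [AlgEquiv.symm_apply_eq, hHf ρ hρ]
  have hH1 : ∀ ρ ∈ H, ∀ a : F1, ρ (i (k1 a)) = i (k1 a) := fun ρ hρ a =>
    DFunLike.congr_fun (show (ρ : A →ₐ[k] A).comp e = e from hρ) (⟨k1 a, k1_mem k1 k2 f a⟩ : EE k1 k2 f)
  have hp : ∀ ρ ∈ H, ∃ π : Equiv.Perm {τ : F2 →ₐ[k] A // τ f = (i.comp k2) f}, ∀ j x,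
      ρ (σ j x) = σ (π j) x := by
    intro ρ hρ
    let π : Equiv.Perm {τ : F2 →ₐ[k] A // τ f = (i.comp k2) f} :=
      { toFun := fun τ => ⟨(ρ : A →ₐ[k] A).comp τ.1, by
          change ρ (τ.1 f) = _
          rw [τ.2]
          exact hHf ρ hρ⟩
        invFun := fun τ => ⟨(ρ.symm : A →ₐ[k] A).comp τ.1, by
          change ρ.symm (τ.1 f) = _
          rw [τ.2]
          exact hHf' ρ hρ⟩
        left_inv := fun τ => Subtype.ext (by
          ext z
          exact ρ.symm_apply_apply _)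
        right_inv := fun τ => Subtype.ext (by
          ext z
          exact ρ.apply_symm_apply _) }
    refine ⟨π, fun j x => ?_⟩
    have h3 : (ρ : A →ₐ[k] A).comp (σ j) = σ (π j) := by
      apply uniq_sigma k1 k2 hinj hgen
      · rw [hσ1]
        ext a
        change ρ ((σ j).comp k1 a) = i (k1 a)
        rw [hσ1]
        exact hH1 ρ hρ a
      · rw [hσ2, AlgHom.comp_assoc, hσ2]
        rfl
    exact DFunLike.congr_fun h3 x
  obtain ⟨u', hu', h⟩ := HF.fam σ e H
    (fun z hz => Pool.Agent.Helper70.JC.fixed_range e he z fun ρ hρ => hz ρ hρ) hp hu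
  obtain ⟨l, -, hl⟩ := HF.ruled h1 (ke k1 k2 f) ⟨k2 f, k2_mem k1 k2 f⟩ (transc_ee k1 k2 f hinj hf)
    (ratF_ee k1 k2 f) hu'
  refine ⟨σ, l, hσ1, hσ2, fun W => ?_⟩
  rw [← h W, hl]
  rfl

end fib

/-- A harmonic function on the places of the function field of a product of two curves depends only on the restrictions
to the function fields of the curves. -/
theorem dep (h1 : IsFunctionField k F1) (h2 : IsFunctionField k F2) (k1 : F1 →ₐ[k] F) (k2 : F2 →ₐ[k] F)
    (hinj : Injective (Algebra.TensorProduct.productMap k1 k2))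
    (hgen : ∀ z : F, ∃ a b : F1 ⊗[k] F2, b ≠ 0 ∧
      z * Algebra.TensorProduct.productMap k1 k2 b = Algebra.TensorProduct.productMap k1 k2 a)
    {u : RPl k F → k} (hu : HF k F u) (w w' : RPl k F) (e1 : w.pl h1 k1 = w'.pl h1 k1)
    (e2 : w.pl h2 k2 = w'.pl h2 k2) : u w = u w' := by
  classical
  obtain ⟨M, ξ, hξ, φ, hφ, huφ⟩ := id hu
  set P1 := w'.pl h1 k1 with hP1
  set P2 := w'.pl h2 k2 with hP2
  obtain ⟨B, hB, hgood⟩ := good h1 h2 k1 k2 hinj hgen ξ hξ P1
  obtain ⟨f, hf0, hfP, hfB⟩ := Pool.Agent.Helper98.IV.approx h2 P2 B hB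
  have hfn : f ∈ P2.ring.nonunits := (FF.ord_pos_iff h2 P2 hf0).mp (by rw [hfP]; exact one_pos)
  have hft : Transcendental k f := transcendental_of_mem_nonunits P2 hf0 hfn
  let A := AlgebraicClosure F
  let i : F →ₐ[k] A := IsScalarTower.toAlgHom k F A
  have halg : ∀ z : A, ∃ p : F[X], p ≠ 0 ∧ p.eval₂ (i : F →+* A) z = 0 := by
    intro z
    obtain ⟨p, hp, h⟩ := Algebra.IsAlgebraic.isAlgebraic (R := F) z
    exact ⟨p, hp, h⟩
  have := finite_tau h2 f hft (i.comp k2)
  let _ : Fintype {τ : F2 →ₐ[k] A // τ f = (i.comp k2) f} := Fintype.ofFinite _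
  obtain ⟨σ, l, hσ1, hσ2, hl⟩ := fib k1 k2 f h1 h2 hinj hgen i halg hft hu
  let U : Place k F2 → k := fun z =>
    if h : ∃ w'' : RPl k F, w''.pl h1 k1 = P1 ∧ w''.pl h2 k2 = z then u h.choose else 0
  have hU : ∀ w'' : RPl k F, w''.pl h1 k1 = P1 → w''.pl h2 k2 ∉ B → u w'' = U (w''.pl h2 k2) := by
    intro w'' h3 h4
    have hex : ∃ v : RPl k F, v.pl h1 k1 = P1 ∧ v.pl h2 k2 = w''.pl h2 k2 := ⟨w'', h3, rfl⟩
    change _ = dite _ _ _
    rw [dif_pos hex, huφ, huφ]
    congr 1
    exact (hgood _ _ hex.choose_spec.1 h3 hex.choose_spec.2 h4).symm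
  have key : ∀ v : RPl k F, v.pl h1 k1 = P1 → v.pl h2 k2 = P2 →
      u v = l P1 + U P2 - ∑ z ∈ (finite_support_ord h2 hf0).toFinset, ((max (ord z.ring f) 0 : ℤ) : k) * U z := by
    intro v hv1 hv2
    obtain ⟨W, hW⟩ := exists_lift i v
    have hx : Rs W ((i.comp k2) f) 0 := by
      have h3 : IsRes (W.pl h2 (i.comp k2)) f 0 := by
        rw [← pl_comap h2 k2 W i, hW, hv2]
        change f - algebraMap k F2 0 ∈ P2.ring.nonunits
        rwa [map_zero, sub_zero]
      exact (isRes_pl h2 (i.comp k2) W f 0).mp h3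
    let τ₀ : {τ : F2 →ₐ[k] A // τ f = (i.comp k2) f} := ⟨i.comp k2, rfl⟩
    have hτ₀ : σ τ₀ = i := uniq_sigma k1 k2 hinj hgen _ _ (hσ1 τ₀) (hσ2 τ₀)
    have hWP : W.pl h2 (i.comp k2) = P2 := by rw [← pl_comap h2 k2 W i, hW, hv2]
    -- only one of the embeddings has the restriction `P2`
    have huniq : ∀ τ : {τ : F2 →ₐ[k] A // τ f = (i.comp k2) f}, W.pl h2 τ.1 = P2 → τ = τ₀ := by
      have h3 := sum_tau h2 f hf0 hft (i.comp k2) W hx (fun z => if z = P2 then (1 : k) else 0)
      rw [Finset.sum_boole] at h3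
      simp only [mul_ite, mul_one, mul_zero, Finset.sum_ite_eq'] at h3
      rw [if_pos (by
        rw [Set.Finite.mem_toFinset]
        change ord P2.ring f ≠ 0
        rw [hfP]
        exact one_ne_zero), hfP] at h3
      have h4 : (Finset.univ.filter fun τ : {τ : F2 →ₐ[k] A // τ f = (i.comp k2) f} => W.pl h2 τ.1 = P2).card = 1 := by
        have h5 : (max (1 : ℤ) 0) = 1 := rfl
        rw [h5, Int.cast_one] at h3
        exact_mod_cast h3
      intro τ hτ
      rw [Finset.card_eq_one] at h4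
      obtain ⟨τ', h5⟩ := h4
      have h6 : τ ∈ ({τ'} : Finset _) := by
        rw [← h5]
        exact Finset.mem_filter.mpr ⟨Finset.mem_univ _, hτ⟩
      have h7 : τ₀ ∈ ({τ'} : Finset _) := by
        rw [← h5]
        exact Finset.mem_filter.mpr ⟨Finset.mem_univ _, hWP⟩
      rw [Finset.mem_singleton.mp h6, Finset.mem_singleton.mp h7]
    have h3 := hl W
    have h4 := sum_tau h2 f hf0 hft (i.comp k2) W hx U
    have h5 : ∑ τ, (u (W.comap (σ τ)) - U (W.pl h2 τ.1)) = u v - U P2 := by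
      rw [Finset.sum_eq_single τ₀]
      · rw [hτ₀, hW]
        congr 1
        exact congrArg U hWP
      · intro τ _ hne
        have h6 : (W.comap (σ τ)).pl h2 k2 = W.pl h2 τ.1 := by rw [pl_comap, hσ2]
        have h7 : (W.comap (σ τ)).pl h1 k1 = P1 := by
          rw [pl_comap, hσ1, ← pl_comap h1 k1 W i, hW, hv1]
        rw [hU _ h7 ?_, h6, sub_self]
        rw [h6]
        intro hmem
        have h8 : W.pl h2 τ.1 ≠ P2 := fun h => hne (huniq τ h)
        have h9 := hfB _ hmem h8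
        have h10 : f ∈ (W.pl h2 τ.1).ring.nonunits := by
          have h11 : IsRes (W.pl h2 τ.1) f 0 := by
            rw [isRes_pl, τ.2]
            exact hx
          have h12 : f - algebraMap k F2 0 ∈ (W.pl h2 τ.1).ring.nonunits := h11
          rwa [map_zero, sub_zero] at h12
        have h13 := (FF.ord_pos_iff h2 _ hf0).mpr h10
        rw [h9] at h13
        exact lt_irrefl _ h13
      · intro h
        exact absurd (Finset.mem_univ _) h
    rw [Finset.sum_sub_distrib, h3, h4] at h5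
    have h6 : W.pl h1 (i.comp k1) = P1 := by rw [← pl_comap h1 k1 W i, hW, hv1]
    rw [h6] at h5
    linear_combination -h5
  rw [key w e1 e2, key w' rfl rfl]

end Pool.Agent.Helper70.IR2
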